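import Mathlib
import Pool.Agent.H.MP_ef395a_gt.A

set_option autoImplicit false

namespace Pool.Agent.Results.MP_ef395a_gt.CH

open Set Cardinal Pool.Agent.H.MP_9c4169_gt Pool.Agent.H.MP_ef395a_gt

theorem result (ch : continuum = (aleph 1 : Cardinal.{0})) :
    ∃ Y : Set (ℕ → ℕ), CompactSpace (ℕ → Bool) ∧ Split (La (Op Y)) (La (Op Y)) ∧
      ¬ Split (La (Op ((ℕ → Bool) × Y))) (La (Op ((ℕ → Bool) × Y))) := by
  obtain ⟨Y, h1, h2⟩ := key ch
  exact ⟨Y, inferInstance, h1, h2⟩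

end Pool.Agent.Results.MP_ef395a_gt.CH
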